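import Pool.Agent.H4.Tron

set_option autoImplicit false

namespace Pool.Agent.Results.MP_e2c3f0_co.No

open Pool.Agent.H4.Tron

def c (x : Fin 39) : ℤ :=
  [0, 0, 0, 0, 0, 0, 0, 0, 1, 2, 9, 0, 0, 0, 0, 2, 2, 0, 0, 0, 0, 0, 0, 0, 0, 8, 5, 0, 0, 0, 0, 0, 0, 0, 0, 0, 2, 4, 3].getD x 0

def f (x : Fin 39) : Fin 39 :=
  [14, 13, 12, 9, 10, 9, 8, 8, 9, 10, 38, 38, 37, 25, 24, 23, 15, 15, 10, 10, 10, 10, 10, 37, 36, 35, 25, 26, 26, 26, 26, 26, 26, 25, 36, 37, 37, 16, 15].getD x 0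

lemma ok : ∀ u : Fin 39, f u ≠ u ∧
    chk (fun a => [a + 1, a - 1]) c 8 78 true u (f u) [u, f u] (c (f u) - c u) = true := by
  decide +kernel

theorem result : ∃ n : ℕ, 3 ≤ n ∧ ∃ w : Fin n → ℝ, (∀ v, 0 ≤ w v) ∧ ∑ v, w v = 1 ∧
    1 / 5 < value (SimpleGraph.cycleGraph n) w := by
  have h0 : ∀ v, 0 ≤ c v := by decide +kernel
  have h1 : ∑ v, c v = 38 := by decide +kernel
  refine ⟨39, by norm_num, fun x => 1 / 38 * c x, fun v => ?_, ?_, lt_of_lt_of_le ?_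
    (le_value (nb := fun a => [a + 1, a - 1]) (by decide +kernel) c 8 (by norm_num) f
      (by rw [Fintype.card_fin]; exact ok))⟩
  · have : (0 : ℝ) ≤ c v := by exact_mod_cast h0 v
    positivity
  · rw [← Finset.mul_sum, ← Int.cast_sum, h1]; norm_num
  · norm_num

end Pool.Agent.Results.MP_e2c3f0_co.No
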